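import Pool.Agent.Helper29.UD.PSD

/-!
# Determinants of growing forms
-/

set_option autoImplicit false

namespace Pool.Agent.Helper29.GD

open Matrix Complex ComplexConjugate Pool.Agent.Helper29.UD
open scoped ComplexOrder MatrixOrder

variable {ι : Type*} [Fintype ι] [DecidableEq ι]

/-- `v ↦ conj (φ v) * ψ v` -/
noncomputable def T2 (φ ψ : ι → ℂ) : Matrix ι ι ℂ := vecMulVec (star φ) ψ

omit [DecidableEq ι] in
theorem T2_apply (φ ψ v : ι → ℂ) : star v ⬝ᵥ (T2 φ ψ *ᵥ v) = conj (φ ⬝ᵥ v) * (ψ ⬝ᵥ v) := by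
  unfold T2
  rw [vecMulVec_mulVec, dotProduct_comm]
  have e2 : conj (φ ⬝ᵥ v) = star v ⬝ᵥ star φ := by
    rw [← Complex.star_def, ← star_dotProduct_star]
  rw [e2]
  simp only [dotProduct, Pi.smul_apply, MulOpposite.smul_eq_mul_unop, MulOpposite.unop_op, Finset.sum_mul, Pi.star_apply]
  refine Finset.sum_congr rfl fun i _ => ?_
  ring

omit [DecidableEq ι] [Fintype ι] in
theorem T2_herm (φ : ι → ℂ) : (T2 φ φ).IsHermitian := by
  unfold T2 IsHermitian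
  rw [conjTranspose_vecMulVec, star_star]

omit [DecidableEq ι] [Fintype ι] in
theorem T2_conj (φ ψ : ι → ℂ) : (T2 φ ψ)ᴴ = T2 ψ φ := by
  unfold T2
  rw [conjTranspose_vecMulVec, star_star]

omit [DecidableEq ι] in
theorem qf_T (φ v : ι → ℂ) : qf (T2 φ φ) v = ‖φ ⬝ᵥ v‖ ^ 2 := by
  unfold qf
  rw [T2_apply, mul_comm, Complex.mul_conj, Complex.normSq_eq_norm_sq, Complex.ofReal_re]

/-- the value of the form of an edge -/
noncomputable def qe (h c : ℝ) (a b : ℂ) : ℝ := h * ‖a‖ ^ 2 + h * ‖b‖ ^ 2 - 2 * c * (conj a * b).re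

/-- the matrix of the form of an edge -/
noncomputable def Qe (h c : ℝ) (φ ψ : ι → ℂ) : Matrix ι ι ℂ :=
  (h : ℂ) • T2 φ φ + (h : ℂ) • T2 ψ ψ - (c : ℂ) • (T2 φ ψ + T2 ψ φ)

omit [DecidableEq ι] in
theorem qf_smul (r : ℝ) (A : Matrix ι ι ℂ) (v : ι → ℂ) : qf ((r : ℂ) • A) v = r * qf A v := by
  unfold qf
  rw [smul_mulVec, dotProduct_smul, smul_eq_mul, Complex.re_ofReal_mul]

omit [DecidableEq ι] in
theorem qf_Qe (h c : ℝ) (φ ψ v : ι → ℂ) : qf (Qe h c φ ψ) v = qe h c (φ ⬝ᵥ v) (ψ ⬝ᵥ v) := by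
  unfold Qe qe
  rw [qf_sub, qf_add, qf_smul, qf_smul, qf_smul, qf_add, qf_T, qf_T]
  have e1 : qf (T2 φ ψ) v = (conj (φ ⬝ᵥ v) * (ψ ⬝ᵥ v)).re := by
    unfold qf
    rw [T2_apply]
  have e2 : qf (T2 ψ φ) v = (conj (φ ⬝ᵥ v) * (ψ ⬝ᵥ v)).re := by
    unfold qf
    rw [T2_apply, ← Complex.conj_re]
    congr 1
    rw [map_mul, Complex.conj_conj, mul_comm]
  rw [e1, e2]
  ring

omit [DecidableEq ι] in
theorem Qe_herm (h c : ℝ) (φ ψ : ι → ℂ) : (Qe h c φ ψ).IsHermitian := by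
  unfold Qe IsHermitian
  rw [conjTranspose_sub, conjTranspose_add, conjTranspose_smul, conjTranspose_smul, conjTranspose_smul,
    conjTranspose_add, T2_conj, T2_conj, T2_conj, T2_conj]
  simp only [Complex.star_def, Complex.conj_ofReal]
  rw [add_comm (T2 ψ φ)]

omit [DecidableEq ι] in
theorem pd_of {Q : Matrix ι ι ℂ} (hQ : Q.IsHermitian) (h : ∀ v, v ≠ 0 → 0 < qf Q v) : Q.PosDef := by
  refine PosDef.of_dotProduct_mulVec_pos hQ fun v hv => ?_
  rw [eq_qf hQ]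
  exact_mod_cast h v hv

/-- comparison up to a factor -/
theorem det_scale {A B : Matrix ι ι ℂ} (hA : A.PosDef) (hB : B.IsHermitian) {C : ℝ}
    (h : ∀ v, qf A v ≤ C * qf B v) : A.det ≤ ((C ^ Fintype.card ι : ℝ) : ℂ) * B.det := by
  have hH : ((C : ℂ) • B).IsHermitian := by
    unfold IsHermitian
    rw [conjTranspose_smul, hB.eq, Complex.star_def, Complex.conj_ofReal]
  have h1 : ((C : ℂ) • B - A).PosSemidef := by
    refine psd_of (hH.sub hA.isHermitian) fun v => ?_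
    rw [qf_sub, qf_smul]
    linarith [h v]
  refine (det_mono hA h1).trans (le_of_eq ?_)
  rw [det_smul]
  push_cast
  rfl

/-- a rank one increase -/
theorem det_rank_one {A B : Matrix ι ι ℂ} (hA : A.PosDef) (hB : B.PosDef) {l : ι → ℂ} {δ : ℝ} (hδ : 0 ≤ δ)
    (h1 : ∀ v, qf A v ≤ qf B v + δ * ‖l ⬝ᵥ v‖ ^ 2) (h2 : ∀ v, ‖l ⬝ᵥ v‖ ^ 2 ≤ qf B v) :
    A.det ≤ ((1 + δ : ℝ) : ℂ) * B.det := by
  obtain ⟨q, hq⟩ : ∃ q : ι → ℂ, q = star l := ⟨_, rfl⟩
  have hqv : ∀ v, star q ⬝ᵥ v = l ⬝ᵥ v := by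
    intro v
    rw [hq, star_star]
  obtain ⟨D, hD⟩ : ∃ D, D = B + vecMulVec ((δ : ℂ) • q) (star q) := ⟨_, rfl⟩
  have hDH : D.IsHermitian := by
    rw [hD]
    refine hB.isHermitian.add ?_
    have : (vecMulVec q (star q) : Matrix ι ι ℂ).IsHermitian := (posSemidef_vecMulVec_self_star q).isHermitian
    rw [smul_vecMulVec]
    unfold IsHermitian
    rw [conjTranspose_smul, this.eq]
    simp
  have hps : (D - A).PosSemidef := by
    refine psd_of (hDH.sub hA.isHermitian) fun v => ?_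
    rw [qf_sub, hD, qf_add, qf_rank, hqv]
    have := h1 v
    linarith
  have hm := det_mono hA hps
  refine hm.trans ?_
  have hGu : IsUnit B.det := isUnit_iff_ne_zero.2 hB.det_pos.ne'
  obtain ⟨x, hx⟩ : ∃ x, x = B⁻¹ *ᵥ q := ⟨_, rfl⟩
  have hGx : B *ᵥ x = q := by
    rw [hx, mulVec_mulVec, mul_nonsing_inv _ hGu, one_mulVec]
  have e1 : D.det = B.det * (1 + (δ : ℂ) * (star q ⬝ᵥ x)) := by
    rw [hD, vecMulVec_eq Unit, det_add_replicateCol_mul_replicateRow hGu]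
    congr 1
    rw [det_unique, Matrix.add_apply, one_apply_eq, Matrix.mul_assoc, ← replicateCol_mulVec, replicateRow_mul_replicateCol_apply,
      mulVec_smul, ← hx, dotProduct_smul, smul_eq_mul]
  have e2 : star q ⬝ᵥ x = (qf B x : ℂ) := by
    have h3 : star x ⬝ᵥ q = (qf B x : ℂ) := by
      rw [← hGx, eq_qf hB.isHermitian]
    have h4 : star q ⬝ᵥ x = star (star x ⬝ᵥ q) := star_dotProduct q x
    rw [h4, h3, Complex.star_def, Complex.conj_ofReal]
  have h6 : qf B x ^ 2 ≤ qf B x := by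
    have h7 := h2 x
    rw [← hqv, e2, Complex.norm_real, Real.norm_eq_abs, sq_abs] at h7
    exact h7
  have h8 : qf B x ≤ 1 := by
    have h9 := qf_nonneg hB x
    nlinarith
  rw [e1, e2, mul_comm]
  refine mul_le_mul_of_nonneg_right ?_ hB.det_pos.le
  rw [← Complex.ofReal_mul, ← Complex.ofReal_one, ← Complex.ofReal_add, Complex.real_le_real]
  nlinarith

/-- the last form dominates the rows -/
theorem norm_det_sq_le_det {S A : Matrix ι ι ℂ} (hA : A.PosDef) (h : ∀ v, ∑ i, ‖(S *ᵥ v) i‖ ^ 2 ≤ qf A v) :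
    ((‖S.det‖ ^ 2 : ℝ) : ℂ) ≤ A.det := by
  have e0 : (Sᴴ * S).det = ((‖S.det‖ ^ 2 : ℝ) : ℂ) := by
    rw [det_mul, det_conjTranspose, ← Complex.normSq_eq_norm_sq, ← Complex.mul_conj, Complex.star_def, mul_comm]
  rw [← e0]
  have hH : (Sᴴ * S).PosSemidef := posSemidef_conjTranspose_mul_self S
  by_cases h0 : (Sᴴ * S).det = 0
  · rw [h0]
    exact hA.det_pos.le
  · have hP : (Sᴴ * S).PosDef := hH.posDef_iff_det_ne_zero.2 h0
    refine det_mono hP ?_
    refine psd_of (hA.isHermitian.sub hH.isHermitian) fun v => ?_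
    rw [qf_sub]
    have e1 : qf (Sᴴ * S) v = ∑ i, ‖(S *ᵥ v) i‖ ^ 2 := by
      unfold qf
      rw [← mulVec_mulVec, dotProduct_mulVec, ← star_mulVec]
      unfold dotProduct
      rw [Complex.re_sum]
      refine Finset.sum_congr rfl fun i _ => ?_
      rw [Pi.star_apply, Complex.star_def, mul_comm, Complex.mul_conj, Complex.normSq_eq_norm_sq, Complex.ofReal_re]
    rw [e1]
    linarith [h v]

end Pool.Agent.Helper29.GD
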