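import Mathlib

/-!
# Elimination of the regular rows, linear form
-/

set_option autoImplicit false

namespace Pool.Agent.Helper29.GD

open Matrix

/-- The solution of the regular rows as a linear function of the values at the special nodes; the determinant is the
one of the special rows applied to it. -/
theorem macro_lin {V : Type*} [Fintype V] [DecidableEq V] (A : Matrix V V ℂ) (P : V → Prop) [DecidablePred P]
    (hD : (A.submatrix (Subtype.val : {v // ¬ P v} → V) Subtype.val).det = 1) :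
    ∃ Y : Matrix V {v // P v} ℂ, (∀ x (v : {v // P v}), (Y *ᵥ x) v = x v) ∧
      (∀ x v, ¬ P v → (A *ᵥ (Y *ᵥ x)) v = 0) ∧
      ∃ S : Matrix {v // P v} {v // P v} ℂ, A.det = S.det ∧ ∀ x (v : {v // P v}), (S *ᵥ x) v = (A *ᵥ (Y *ᵥ x)) v := by
  classical
  set e : {v // P v} ⊕ {v // ¬ P v} ≃ V := Equiv.sumCompl P with he
  set A11 : Matrix {v // P v} {v // P v} ℂ := A.submatrix Subtype.val Subtype.val with h11
  set A12 : Matrix {v // P v} {v // ¬ P v} ℂ := A.submatrix Subtype.val Subtype.val with h12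
  set A21 : Matrix {v // ¬ P v} {v // P v} ℂ := A.submatrix Subtype.val Subtype.val with h21
  set A22 : Matrix {v // ¬ P v} {v // ¬ P v} ℂ := A.submatrix Subtype.val Subtype.val with h22
  have hblock : A.submatrix e e = fromBlocks A11 A12 A21 A22 := by
    ext i j
    rcases i with i | i <;> rcases j with j | j <;> simp [he, h11, h12, h21, h22, fromBlocks]
  have hu : IsUnit A22.det := by rw [hD]; exact isUnit_one
  set S : Matrix {v // P v} {v // P v} ℂ := A11 - A12 * A22⁻¹ * A21 with hS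
  have hdet : A.det = S.det := by
    have : Invertible A22 := A22.invertibleOfIsUnitDet hu
    rw [← det_submatrix_equiv_self e A, hblock, det_fromBlocks₂₂, hD, one_mul, invOf_eq_nonsing_inv]
  set Z : Matrix {v // ¬ P v} {v // P v} ℂ := -(A22⁻¹ * A21) with hZ
  set Y : Matrix V {v // P v} ℂ := fun v j => Sum.elim (fun i => (1 : Matrix {v // P v} {v // P v} ℂ) i j) (fun i => Z i j) (e.symm v)
    with hY
  have hYx : ∀ x : {v // P v} → ℂ, (Y *ᵥ x) ∘ e = Sum.elim x (Z *ᵥ x) := by
    intro x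
    ext i
    rcases i with i | i
    · have : (Y *ᵥ x) (e (Sum.inl i)) = ((1 : Matrix {v // P v} {v // P v} ℂ) *ᵥ x) i := by
        simp only [mulVec, dotProduct, hY, Equiv.symm_apply_apply, Sum.elim_inl]
      simp only [Function.comp, this, one_mulVec, Sum.elim_inl]
    · simp only [Function.comp, mulVec, dotProduct, hY, Equiv.symm_apply_apply, Sum.elim_inr]
  have hmul : ∀ x : {v // P v} → ℂ, (A *ᵥ (Y *ᵥ x)) ∘ e = fromBlocks A11 A12 A21 A22 *ᵥ Sum.elim x (Z *ᵥ x) := by
    intro x
    rw [← hblock, ← hYx]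
    ext i
    simp only [Function.comp, mulVec, dotProduct, submatrix_apply]
    exact (Equiv.sum_comp e (fun v => A (e i) v * ∑ j, Y v j * x j)).symm
  refine ⟨Y, fun x v => ?_, fun x v hv => ?_, S, hdet, fun x v => ?_⟩
  · have := congrFun (hYx x) (Sum.inl v)
    simpa [he] using this
  · have h1 := congrFun (hmul x) (Sum.inr ⟨v, hv⟩)
    rw [fromBlocks_mulVec] at h1
    have h2 : (A *ᵥ (Y *ᵥ x)) v = (A21 *ᵥ x + A22 *ᵥ (Z *ᵥ x)) ⟨v, hv⟩ := by simpa [he] using h1
    rw [h2, hZ, neg_mulVec, mulVec_neg, mulVec_mulVec, ← Matrix.mul_assoc, mul_nonsing_inv _ hu, Matrix.one_mul]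
    simp
  · have h1 := congrFun (hmul x) (Sum.inl v)
    rw [fromBlocks_mulVec] at h1
    have h2 : (A *ᵥ (Y *ᵥ x)) v = (A11 *ᵥ x + A12 *ᵥ (Z *ᵥ x)) v := by simpa [he] using h1
    rw [h2, hZ, hS, neg_mulVec, mulVec_neg, sub_mulVec, mulVec_mulVec, ← sub_eq_add_neg, Matrix.mul_assoc]

end Pool.Agent.Helper29.GD
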