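import Pool.Agent.Helper29.GD.Special
import Pool.Agent.Helper29.GD.MacroL
import Pool.Agent.Helper57.PD.TmG
import Pool.Agent.Helper30.EV3.Strand

/-!
# The determinant of a positive diagram at every complex parameter
-/

set_option autoImplicit false

namespace Pool.Agent.Helper29.GD

open Matrix Complex ComplexConjugate Pool.Agent.Helper29.UD
open scoped ComplexOrder MatrixOrder
open Pool.Agent.Helper57.PD Pool.Agent.Helper85.Exp Pool.Agent.Helper2.PD Pool.Agent.Helper41.PD Pool.Agent.Helper16.PD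
  Pool.Agent.Helper30.EV3

section abs

variable {ι : Type*} [Fintype ι] [DecidableEq ι]

omit [DecidableEq ι] in
theorem qf_zero (v : ι → ℂ) : qf (0 : Matrix ι ι ℂ) v = 0 := by
  unfold qf
  simp

omit [DecidableEq ι] in
theorem qf_sum {κ : Type*} (t : Finset κ) (A : κ → Matrix ι ι ℂ) (v : ι → ℂ) : qf (∑ k ∈ t, A k) v = ∑ k ∈ t, qf (A k) v := by
  classical
  induction t using Finset.induction_on with
  | empty => simp [qf_zero]
  | insert a t ha ih => rw [Finset.sum_insert ha, Finset.sum_insert ha, qf_add, ih]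

theorem qf_one (v : ι → ℂ) : qf (1 : Matrix ι ι ℂ) v = ∑ i, ‖v i‖ ^ 2 := by
  unfold qf
  rw [one_mulVec]
  unfold dotProduct
  rw [Complex.re_sum]
  refine Finset.sum_congr rfl fun i _ => ?_
  rw [Pi.star_apply, Complex.star_def, mul_comm, Complex.mul_conj, Complex.normSq_eq_norm_sq, Complex.ofReal_re]

omit [Fintype ι] [DecidableEq ι] in
theorem herm_sum {κ : Type*} (t : Finset κ) (A : κ → Matrix ι ι ℂ) (h : ∀ k ∈ t, (A k).IsHermitian) :
    (∑ k ∈ t, A k).IsHermitian := by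
  unfold IsHermitian
  rw [conjTranspose_sum]
  exact Finset.sum_congr rfl fun k hk => h k hk

theorem chain_abs {α : Type*} {X : List α} {sp : α → Prop} [DecidablePred sp] (M : List α → Matrix ι ι ℂ) {S K : ℝ}
    (hS : 1 ≤ S) (hK : 1 ≤ K) (hpd : ∀ pre suf, X = pre ++ suf → (M pre).PosDef)
    (hreg : ∀ pre p suf, X = pre ++ p :: suf → ¬ sp p → (M (pre ++ [p])).det ≤ (S : ℂ) * (M pre).det)
    (hsp : ∀ pre p suf, X = pre ++ p :: suf → sp p → (M (pre ++ [p])).det ≤ (K : ℂ) * (M pre).det) :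
    ∀ pre suf, X = pre ++ suf → (M pre).det ≤ ((S ^ pre.length * K ^ pre.countP (fun a => decide (sp a)) : ℝ) : ℂ) * (M []).det := by
  intro pre
  induction pre using List.reverseRecOn with
  | nil =>
    intro suf hX
    simp
  | append_singleton pre p ih =>
    intro suf hX
    have hX' : X = pre ++ p :: suf := by rw [hX]; simp
    have h1 := ih (p :: suf) hX'
    have h0 : (0 : ℂ) ≤ (M []).det := (hpd [] X rfl).det_pos.le
    have hS0 : (0 : ℂ) ≤ (S : ℂ) := by
      rw [← Complex.ofReal_zero, Complex.real_le_real]; linarith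
    have hK0 : (0 : ℂ) ≤ (K : ℂ) := by
      rw [← Complex.ofReal_zero, Complex.real_le_real]; linarith
    have hSp : 1 ≤ S ^ pre.length := one_le_pow₀ hS
    have hKp : 1 ≤ K ^ pre.countP (fun a => decide (sp a)) := one_le_pow₀ hK
    by_cases hp : sp p
    · refine (hsp pre p suf hX' hp).trans ((mul_le_mul_of_nonneg_left h1 hK0).trans ?_)
      have e1 : (K : ℂ) * (((S ^ pre.length * K ^ pre.countP (fun a => decide (sp a)) : ℝ) : ℂ) * (M []).det) =
          ((K * (S ^ pre.length * K ^ pre.countP (fun a => decide (sp a))) : ℝ) : ℂ) * (M []).det := by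
        push_cast; ring
      rw [e1]
      refine mul_le_mul_of_nonneg_right ?_ h0
      rw [Complex.real_le_real, List.length_append, List.length_singleton, List.countP_append]
      have e2 : List.countP (fun a => decide (sp a)) [p] = 1 := by simp [hp]
      rw [e2, pow_succ S, pow_succ K]
      have h3 : 0 ≤ K * (S ^ pre.length * K ^ pre.countP (fun a => decide (sp a))) := by positivity
      nlinarith
    · refine (hreg pre p suf hX' hp).trans ((mul_le_mul_of_nonneg_left h1 hS0).trans ?_)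
      have e1 : (S : ℂ) * (((S ^ pre.length * K ^ pre.countP (fun a => decide (sp a)) : ℝ) : ℂ) * (M []).det) =
          ((S * (S ^ pre.length * K ^ pre.countP (fun a => decide (sp a))) : ℝ) : ℂ) * (M []).det := by
        push_cast; ring
      rw [e1]
      refine mul_le_mul_of_nonneg_right ?_ h0
      rw [Complex.real_le_real, List.length_append, List.length_singleton, List.countP_append]
      have e2 : List.countP (fun a => decide (sp a)) [p] = 0 := by simp [hp]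
      rw [e2, pow_succ S, add_zero]
      linarith

end abs

section pd

variable {P : Type} [Fintype P] {G : Sh P} {C : Finset P} {τ : P → ℕ}

/-- the energy of the current edges -/
noncomputable def En (H : Cut G.nxt G.op C τ) (h c : ℝ) (v : Face G → ℂ) (pre : List P) : ℝ :=
  ∑ l, qe h c (v (Lf G (stt H (fun l => l.1) pre l))) (v (Rf G (stt H (fun l => l.1) pre l)))

/-- (S1) the change of the energy -/
def HS1 (H : Cut G.nxt G.op C τ) (X : List P) (h c : ℝ) : Prop :=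
  ∀ (v : Face G → ℂ) (pre : List P) (p : P) (suf : List P), X = pre ++ p :: suf →
    En H h c v (pre ++ [p]) = En H h c v pre + fx h c (v (Rf G p)) (v (Lf G p) + v (Rf G (G.op p))) -
      fx h c (v (Lf G (G.nxt.symm p))) (v (Lf G p) + v (Rf G (G.op p)))

/-- (S2) the lower bound of the energy -/
def HS2 (H : Cut G.nxt G.op C τ) (X : List P) (h c r : ℝ) : Prop :=
  ∀ (v : Face G → ℂ) (M : ℝ), (∀ e ∈ C, ‖v (Lf G e)‖ ^ 2 ≤ M ∧ ‖v (Rf G e)‖ ^ 2 ≤ M) →
    ∀ (pre : List P) (p : P) (suf : List P), X = pre ++ p :: suf →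
      fx h c (v (Lf G (G.nxt.symm p))) (v (Lf G p) + v (Rf G (G.op p))) +
        (h + r) * (‖v (Lf G p)‖ ^ 2 + ‖v (Rf G (G.op p))‖ ^ 2) ≤ En H h c v pre + 2 * C.card * r * M

/-- the determinant does not depend on the instances -/
theorem det_inst {n : Type*} {R : Type*} [CommRing R] (i i' : DecidableEq n) (f f' : Fintype n) (M : Matrix n n R) :
    @Matrix.det n i f R _ M = @Matrix.det n i' f' R _ M := by
  cases Subsingleton.elim i i'
  cases Subsingleton.elim f f'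
  rfl

open Classical in
/-- **The determinant of a positive diagram.** -/
theorem norm_det_sq_le' {s0 : ℕ} (h : Good s0 G) (H : Cut G.nxt G.op C τ) {x0 : P} (hx0 : x0 ∈ C) {X : List P}
    (hlf : ∀ p ∈ X, G.lf p = true) (hnd : X.Nodup) (hcov : ∀ p, G.lf p = true → p ∈ X) {s : ℂ} (h0 : s ≠ 0) (h1 : ‖s‖ < 1)
    {S : ℝ} (hS : 1 ≤ S) (hS2 : S * (1 + ‖s‖ ^ 4 + 2 * s.im ^ 2) ≤ S ^ 2 + ‖s‖ ^ 4) {hh c r : ℝ}
    (hhd : hh = (‖s‖⁻¹ + ‖s‖) / 2) (hcd : c = s.re / ‖s‖) (hr0 : 0 < r) (hr2 : r ^ 2 = hh ^ 2 - c ^ 2)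
    (S1 : HS1 H X hh c) (S2 : HS2 H X hh c r) (D : Fd (Cr G) (Face G)) (hD : D = fdG h (G.nxt x0)) (e : Cr G ≃ D.Col) :
    ‖((D.A (s ^ 2) (-s) (-s)).submatrix id e).det‖ ^ 2 ≤
      S ^ X.length * ((1 + 18 * hh / r) ^ (spc G C).card) ^ (spc G C).card * (8 * hh * C.card) ^ (spc G C).card := by
  have : Fintype (Face G) := Fintype.ofFinite _
  have hTm : D.Tm (fun x => x.1 ∈ spc G C) (fun x => τ x.1) := by rw [hD]; exact tm_of h H hx0
  obtain ⟨e', he'⟩ := D.exists_equiv hTm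
  have hee : ‖((D.A (s ^ 2) (-s) (-s)).submatrix id e).det‖ = ‖((D.A (s ^ 2) (-s) (-s)).submatrix id e').det‖ := by
    exact (congrArg (fun z : ℂ => ‖z‖) (det_inst _ _ _ _ _)).trans
      ((Fd.norm_det_equiv D e e' (D.A (s ^ 2) (-s) (-s))).trans (congrArg (fun z : ℂ => ‖z‖) (det_inst _ _ _ _ _)))
  rw [hee]
  obtain ⟨A, hA⟩ : ∃ A : Matrix (Cr G) (Cr G) ℂ, A = (D.A (s ^ 2) (-s) (-s)).submatrix id e' := ⟨_, rfl⟩
  rw [← hA]
  obtain ⟨Y, hY1, hY2, Sm, hdet, hSm⟩ := macro_lin A (fun x => x.1 ∈ spc G C) (by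
    rw [hA]
    exact (det_inst _ _ _ _ _).trans (D.det_inner hTm e' he' (s ^ 2) (-s) (-s)))
  rw [hdet]
  -- basic numbers
  have hm0 : 0 < ‖s‖ := norm_pos_iff.2 h0
  have hh1 : 1 ≤ hh := by
    rw [hhd]
    have : ‖s‖ * ‖s‖⁻¹ = 1 := mul_inv_cancel₀ hm0.ne'
    have h2 : 0 ≤ (1 - ‖s‖) ^ 2 := sq_nonneg _
    have h3 : 0 < ‖s‖⁻¹ := inv_pos.2 hm0
    nlinarith
  have hc1 : |c| ≤ 1 := by
    rw [hcd, abs_div, abs_of_pos hm0, div_le_one hm0]
    exact Complex.abs_re_le_norm s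
  have hrh : r ≤ hh := by nlinarith [sq_nonneg c]
  have hh0 : 0 < hh := by linarith
  have hC1 : (1 : ℝ) ≤ C.card := by exact_mod_cast Finset.card_pos.2 ⟨x0, hx0⟩
  -- the potentials as functionals
  obtain ⟨Φ, hΦ⟩ : ∃ Φ : Face G → {x : Cr G // x.1 ∈ spc G C} → ℂ, Φ = fun f =>
    if hf : f ≠ D.f₁ ∧ f ≠ D.f₂ then Y (e'.symm ⟨f, hf⟩) else 0 := ⟨_, rfl⟩
  obtain ⟨v, hv⟩ : ∃ v : ({x : Cr G // x.1 ∈ spc G C} → ℂ) → Face G → ℂ, v = fun x f => Φ f ⬝ᵥ x := ⟨_, rfl⟩
  have v1 : ∀ x, v x D.f₁ = 0 := fun x => by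
    rw [hv, hΦ]
    simp only
    rw [dif_neg (fun h => h.1 rfl), zero_dotProduct]
  have v2 : ∀ x, v x D.f₂ = 0 := fun x => by
    rw [hv, hΦ]
    simp only
    rw [dif_neg (fun h => h.2 rfl), zero_dotProduct]
  have v3 : ∀ x y, v x (e' y).1 = (Y *ᵥ x) y := fun x y => by
    rw [hv, hΦ]
    simp only
    rw [dif_pos (e' y).2]
    have : e'.symm ⟨(e' y).1, (e' y).2⟩ = y := e'.symm_apply_apply y
    rw [this]
    rfl
  have v4 : ∀ x y, D.row (s ^ 2) (-s) (-s) (v x) y = (A *ᵥ (Y *ᵥ x)) y := by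
    intro x y
    rw [← D.mulVec_row (s ^ 2) (-s) (-s) (v x) (v1 x) (v2 x) y, hA]
    show _ = ∑ z, D.A (s ^ 2) (-s) (-s) y (e' z) * (Y *ᵥ x) z
    rw [← Equiv.sum_comp e' fun f => D.A (s ^ 2) (-s) (-s) y f * v x f.1]
    exact Finset.sum_congr rfl fun z _ => by rw [v3]
  -- the size of the parameters
  obtain ⟨nn, hnn⟩ : ∃ nn : ({x : Cr G // x.1 ∈ spc G C} → ℂ) → ℝ, nn = fun x => ∑ i, ‖x i‖ ^ 2 := ⟨_, rfl⟩
  have nn0 : ∀ x, 0 ≤ nn x := fun x => by rw [hnn]; exact Finset.sum_nonneg fun i _ => sq_nonneg _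
  have v5 : ∀ x f, (∀ y : Cr G, y.1 ∉ spc G C → D.N y ≠ f) → ‖v x f‖ ^ 2 ≤ nn x := by
    intro x f hf
    by_cases h3 : f ≠ D.f₁ ∧ f ≠ D.f₂
    · have h4 : f = (e' (e'.symm ⟨f, h3⟩)).1 := by rw [Equiv.apply_symm_apply]
      by_cases h5 : (e'.symm ⟨f, h3⟩).1 ∈ spc G C
      · rw [h4, v3, hY1 x ⟨_, h5⟩, hnn]
        exact Finset.single_le_sum (f := fun i => ‖x i‖ ^ 2) (fun i _ => sq_nonneg _) (Finset.mem_univ _)
      · exact absurd (by rw [← he' _ h5, ← h4]) (hf _ h5)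
    · have h4 : v x f = 0 := by
        rcases not_and_or.1 h3 with h5 | h5
        · rw [not_not.1 h5, v1]
        · rw [not_not.1 h5, v2]
      rw [h4, norm_zero]
      have := nn0 x
      simpa using this
  have v6 : ∀ x, ∀ e ∈ C, ‖v x (Lf G e)‖ ^ 2 ≤ nn x ∧ ‖v x (Rf G e)‖ ^ 2 ≤ nn x := by
    intro x e he
    constructor
    · refine v5 x _ fun y hy => ?_
      rw [hD]
      exact fun h4 => ((reg_face y.2 hy).2 e he).1 h4.symm
    · refine v5 x _ fun y hy => ?_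
      rw [hD]
      exact fun h4 => ((reg_face y.2 hy).2 e he).2 h4.symm
  -- the forms
  obtain ⟨ρ, hρ⟩ : ∃ ρ : ℝ, ρ = 3 * C.card * r := ⟨_, rfl⟩
  have hρ0 : 0 < ρ := by rw [hρ]; positivity
  obtain ⟨M, hM⟩ : ∃ M : List P → Matrix {x : Cr G // x.1 ∈ spc G C} {x : Cr G // x.1 ∈ spc G C} ℂ, M = fun pre =>
    (∑ l, Qe hh c (Φ (Lf G (stt H (fun l => l.1) pre l))) (Φ (Rf G (stt H (fun l => l.1) pre l)))) + ((ρ : ℝ) : ℂ) • 1 +
      ∑ y : {x : Cr G // x.1 ∈ spc G C}, if y.1.1 ∈ pre then T2 (Sm y) (Sm y) else 0 := ⟨_, rfl⟩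
  have hMH : ∀ pre, (M pre).IsHermitian := by
    intro pre
    rw [hM]
    refine ((herm_sum _ _ fun l _ => Qe_herm _ _ _ _).add ?_).add (herm_sum _ _ fun y _ => ?_)
    · unfold IsHermitian
      rw [conjTranspose_smul, conjTranspose_one, Complex.star_def, Complex.conj_ofReal]
    · split_ifs
      · exact T2_herm _
      · exact isHermitian_zero
  have hMq : ∀ pre x, qf (M pre) x = En H hh c (v x) pre + ρ * nn x +
      ∑ y : {x : Cr G // x.1 ∈ spc G C}, if y.1.1 ∈ pre then ‖(Sm *ᵥ x) y‖ ^ 2 else 0 := by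
    intro pre x
    rw [hM]
    simp only
    rw [qf_add, qf_add, qf_sum, qf_sum, qf_smul, qf_one, hnn]
    congr 1
    · congr 1
      unfold En
      refine Finset.sum_congr rfl fun l _ => ?_
      rw [qf_Qe, hv]
    · refine Finset.sum_congr rfl fun y _ => ?_
      split_ifs
      · rw [qf_T]
        rfl
      · exact qf_zero x
  have hEn0 : ∀ x pre, 0 ≤ En H hh c (v x) pre := fun x pre => Finset.sum_nonneg fun l _ => qe_nonneg hr0 hr2 hh0 _ _
  have hR0 : ∀ (x : {x : Cr G // x.1 ∈ spc G C} → ℂ) (pre : List P),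
      0 ≤ ∑ y : {x : Cr G // x.1 ∈ spc G C}, if y.1.1 ∈ pre then ‖(Sm *ᵥ x) y‖ ^ 2 else 0 := fun x pre =>
    Finset.sum_nonneg fun y _ => by split_ifs <;> positivity
  have hpd : ∀ pre, (M pre).PosDef := by
    intro pre
    refine pd_of (hMH pre) fun x hx => ?_
    rw [hMq]
    obtain ⟨i, hi⟩ := Function.ne_iff.1 hx
    have h3 : 0 < nn x := by
      rw [hnn]
      refine Finset.sum_pos' (fun j _ => by positivity) ⟨i, Finset.mem_univ _, ?_⟩
      have := norm_pos_iff.2 hi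
      positivity
    have := hEn0 x pre
    have := hR0 x pre
    have : 0 < ρ * nn x := by positivity
    linarith
  -- the lower bound at a crossing
  have hlow : ∀ x pre p suf, X = pre ++ p :: suf →
      fx hh c (v x (Lf G (G.nxt.symm p))) (v x (Lf G p) + v x (Rf G (G.op p))) +
        (hh + r) * (‖v x (Lf G p)‖ ^ 2 + ‖v x (Rf G (G.op p))‖ ^ 2) + r * nn x ≤ qf (M pre) x := by
    intro x pre p suf hX
    have h3 := S2 (v x) (nn x) (v6 x) pre p suf hX
    rw [hMq, hρ]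
    have h4 := hR0 x pre
    have h5 : r * nn x ≤ C.card * r * nn x := by
      have := mul_le_mul_of_nonneg_right hC1 (mul_nonneg hr0.le (nn0 x))
      linarith
    linarith
  -- the new rows
  have hrows : ∀ (x : {x : Cr G // x.1 ∈ spc G C} → ℂ) (pre : List P) (p : P) (suf : List P), X = pre ++ p :: suf →
      (p ∉ spc G C → (∑ y : {x : Cr G // x.1 ∈ spc G C}, if y.1.1 ∈ pre ++ [p] then ‖(Sm *ᵥ x) y‖ ^ 2 else 0) =
        ∑ y : {x : Cr G // x.1 ∈ spc G C}, if y.1.1 ∈ pre then ‖(Sm *ᵥ x) y‖ ^ 2 else 0) ∧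
      (∀ hp : p ∈ spc G C, ∀ hl : G.lf p = true,
        (∑ y : {x : Cr G // x.1 ∈ spc G C}, if y.1.1 ∈ pre ++ [p] then ‖(Sm *ᵥ x) y‖ ^ 2 else 0) =
        (∑ y : {x : Cr G // x.1 ∈ spc G C}, if y.1.1 ∈ pre then ‖(Sm *ᵥ x) y‖ ^ 2 else 0) +
          ‖(Sm *ᵥ x) ⟨⟨p, hl⟩, hp⟩‖ ^ 2) := by
    intro x pre p suf hX
    constructor
    · intro hp
      refine Finset.sum_congr rfl fun y _ => ?_
      have : y.1.1 ≠ p := fun h4 => hp (h4 ▸ y.2)
      simp [this]
    · intro hp hl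
      have hpn : p ∉ pre := by
        rw [hX] at hnd
        intro h4
        exact (List.nodup_append.1 hnd).2.2 p h4 p (by simp) rfl
      have e1 : ∀ y : {x : Cr G // x.1 ∈ spc G C}, (if y.1.1 ∈ pre ++ [p] then ‖(Sm *ᵥ x) y‖ ^ 2 else 0) =
          (if y.1.1 ∈ pre then ‖(Sm *ᵥ x) y‖ ^ 2 else 0) + (if y = ⟨⟨p, hl⟩, hp⟩ then ‖(Sm *ᵥ x) y‖ ^ 2 else 0) := by
        intro y
        by_cases h4 : y = ⟨⟨p, hl⟩, hp⟩
        · rw [h4]
          simp [hpn]
        · have h5 : y.1.1 ≠ p := fun h6 => h4 (Subtype.ext (Subtype.ext h6))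
          simp [h4, h5]
      simp only [e1, Finset.sum_add_distrib]
      congr 1
      rw [Finset.sum_ite_eq' Finset.univ, if_pos (Finset.mem_univ _)]
  obtain ⟨K, hK⟩ : ∃ K : ℝ, K = 1 + 18 * hh / r := ⟨_, rfl⟩
  have hK1 : 1 ≤ K := by
    rw [hK]
    have : 0 ≤ 18 * hh / r := by positivity
    linarith
  have hcard : Fintype.card {x : Cr G // x.1 ∈ spc G C} = (spc G C).card := by
    rw [← Fintype.card_coe]
    refine Fintype.card_congr ⟨fun y => ⟨y.1.1, y.2⟩, fun y => ⟨⟨y.1, ?_⟩, y.2⟩, fun y => rfl, fun y => rfl⟩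
    have := y.2
    unfold spc at this
    exact (Finset.mem_filter.1 this).2.1
  have hchain := chain_abs (X := X) (sp := fun p => p ∈ spc G C) M hS (one_le_pow₀ hK1 (n := (spc G C).card))
    (fun pre suf _ => hpd pre) ?_ ?_ X [] (by simp)
  rotate_left
  · -- a regular crossing
    intro pre p suf hX hp
    have hl : G.lf p = true := hlf p (by rw [hX]; simp)
    obtain ⟨a, b, hab⟩ := letter2 h0 h1 hS hS2 hhd hcd hr0 hr2
    obtain ⟨l, hl'⟩ : ∃ l, l = a • Φ (Lf G (G.nxt.symm p)) + b • (Φ (Lf G p) + Φ (Rf G (G.op p))) := ⟨_, rfl⟩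
    have hlv : ∀ x, l ⬝ᵥ x = a * v x (Lf G (G.nxt.symm p)) + b * (v x (Lf G p) + v x (Rf G (G.op p))) := by
      intro x
      rw [hl', add_dotProduct, smul_dotProduct, smul_dotProduct, add_dotProduct, hv, smul_eq_mul, smul_eq_mul]
    have hrow : ∀ x, v x (Rf G p) = -s ^ 2 * v x (Lf G (G.nxt.symm p)) + s * (v x (Lf G p) + v x (Rf G (G.op p))) := by
      intro x
      have h3 := v4 x ⟨p, hl⟩
      rw [hY2 x ⟨p, hl⟩ hp, hD] at h3
      have h4 : v x (Rf G p) + s ^ 2 * v x (Lf G (G.nxt.symm p)) + -s * v x (Lf G p) + -s * v x (Rf G (G.op p)) = 0 := h3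
      linear_combination h4
    have h5 := det_rank_one (hpd (pre ++ [p])) (hpd pre) (l := l) (δ := S - 1) (by linarith) ?_ ?_
    · rwa [add_sub_cancel] at h5
    · intro x
      rw [hMq, hMq, S1 (v x) pre p suf hX, (hrows x pre p suf hX).1 hp, hlv]
      have h6 := (hab (v x (Lf G (G.nxt.symm p))) (v x (Lf G p) + v x (Rf G (G.op p)))).1
      rw [← hrow, q2_eq, q2_eq] at h6
      linarith
    · intro x
      rw [hlv]
      refine (hab _ _).2.trans ((q2_le (by linarith) _ _ _).trans ?_)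
      have h6 := hlow x pre p suf hX
      have h7 : 0 ≤ r * nn x := mul_nonneg hr0.le (nn0 x)
      linarith
  · -- a special crossing
    intro pre p suf hX hp
    have hl : G.lf p = true := hlf p (by rw [hX]; simp)
    rw [← hcard]
    refine det_scale (hpd (pre ++ [p])) (hMH pre) fun x => ?_
    rw [hMq (pre ++ [p]), S1 (v x) pre p suf hX, (hrows x pre p suf hX).2 hp hl]
    have h3 := v4 x ⟨p, hl⟩
    rw [← hSm x ⟨⟨p, hl⟩, hp⟩, hD] at h3
    have h4 : v x (Rf G p) + s ^ 2 * v x (Lf G (G.nxt.symm p)) + -s * v x (Lf G p) + -s * v x (Rf G (G.op p)) =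
      (Sm *ᵥ x) ⟨⟨p, hl⟩, hp⟩ := h3
    rw [← h4]
    have hN : ‖v x (Rf G p)‖ ^ 2 ≤ nn x := by
      refine v5 x _ fun y hy hyp => ?_
      have h5 : D.N ⟨p, hl⟩ = D.N y := by rw [hyp, hD]; rfl
      have h6 := hTm.uniq y ⟨p, hl⟩ hy h5
      rw [← h6] at hy
      exact hy hp
    have h6 := special_step hh1 hc1 hr0 hr2 h1.le (nn0 x) (hlow x pre p suf hX) hN
    rw [← hK] at h6
    rw [hMq pre] at h6 ⊢
    linarith
  -- start
  have hstart : (M []).det ≤ (((8 * hh * C.card) ^ (spc G C).card : ℝ) : ℂ) := by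
    have h3 := det_scale (hpd []) (isHermitian_one (n := {x : Cr G // x.1 ∈ spc G C}) (α := ℂ)) (C := 8 * hh * C.card) ?_
    · rwa [det_one, mul_one, hcard] at h3
    · intro x
      rw [hMq, qf_one]
      have e1 : (∑ y : {x : Cr G // x.1 ∈ spc G C}, if y.1.1 ∈ ([] : List P) then ‖(Sm *ᵥ x) y‖ ^ 2 else 0) = 0 :=
        Finset.sum_eq_zero fun y _ => by simp
      rw [e1, add_zero]
      have e2 : (∑ i, ‖x i‖ ^ 2) = nn x := by rw [hnn]
      rw [e2]
      have h4 : En H hh c (v x) [] ≤ ∑ _l : {x // x ∈ C}, 4 * hh * nn x := by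
        unfold En
        refine Finset.sum_le_sum fun l _ => ?_
        have h5 := v6 x l.1 l.2
        exact qe_le hh1 hc1 h5.1 h5.2
      rw [Finset.sum_const, Finset.card_univ, Fintype.card_coe, nsmul_eq_mul] at h4
      rw [hρ]
      have h5 : 3 * (C.card : ℝ) * r * nn x ≤ 3 * C.card * hh * nn x := by
        have := nn0 x
        gcongr
      have h6 : 0 ≤ (C.card : ℝ) * hh * nn x := by
        have := nn0 x
        positivity
      linarith
  -- end
  have hend := norm_det_sq_le_det (S := Sm) (hpd X) (fun x => by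
    rw [hMq]
    have h3 := hEn0 x X
    have h4 : 0 ≤ ρ * nn x := mul_nonneg hρ0.le (nn0 x)
    have e1 : (∑ y : {x : Cr G // x.1 ∈ spc G C}, if y.1.1 ∈ X then ‖(Sm *ᵥ x) y‖ ^ 2 else 0) = ∑ i, ‖(Sm *ᵥ x) i‖ ^ 2 :=
      Finset.sum_congr rfl fun y _ => if_pos (hcov _ y.1.2)
    rw [e1]
    linarith)
  have hcount : X.countP (fun a => decide (a ∈ spc G C)) ≤ (spc G C).card := by
    rw [List.countP_eq_length_filter, ← List.toFinset_card_of_nodup (hnd.filter _)]
    refine Finset.card_le_card fun a ha => ?_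
    rw [List.mem_toFinset, List.mem_filter] at ha
    simpa using ha.2
  have hS0 : (0 : ℝ) ≤ S ^ X.length := by positivity
  have hbig : (0 : ℂ) ≤ ((S ^ X.length * (K ^ (spc G C).card) ^ X.countP (fun a => decide (a ∈ spc G C)) : ℝ) : ℂ) := by
    rw [← Complex.ofReal_zero, Complex.real_le_real]
    positivity
  have hfin := (hend.trans hchain).trans (mul_le_mul_of_nonneg_left hstart hbig)
  rw [← Complex.ofReal_mul, Complex.real_le_real] at hfin
  refine hfin.trans ?_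
  rw [← hK]
  refine mul_le_mul_of_nonneg_right ?_ (by positivity)
  refine mul_le_mul_of_nonneg_left ?_ hS0
  exact pow_le_pow_right₀ (one_le_pow₀ hK1) hcount

end pd

end Pool.Agent.Helper29.GD
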