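import Pool.Agent.Helper29.GD.Scalar

/-!
# A special crossing: a factor depending on the parameter only
-/

set_option autoImplicit false

namespace Pool.Agent.Helper29.GD

open Complex ComplexConjugate Pool.Agent.Helper29.UD

/-- the part of the form which contains the face `x`, with the sum `u` of its neighbours -/
noncomputable def fx (h c : ℝ) (x u : ℂ) : ℝ := 2 * h * ‖x‖ ^ 2 - 2 * c * (conj x * u).re

theorem q2_eq (h c α : ℝ) (x u : ℂ) : q2 h c α x u = fx h c x u + α / 2 * ‖u‖ ^ 2 := rfl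

theorem norm_add_sq_le (a b : ℂ) : ‖a + b‖ ^ 2 ≤ 2 * (‖a‖ ^ 2 + ‖b‖ ^ 2) := by
  have h4 := norm_add_le a b
  have h5 := norm_nonneg (a + b)
  nlinarith [sq_nonneg (‖a‖ - ‖b‖)]

/-- from the two neighbours to their sum -/
theorem q2_le {h c r : ℝ} (hα : 0 ≤ h + r) (x a b : ℂ) :
    q2 h c (h + r) x (a + b) ≤ fx h c x (a + b) + (h + r) * (‖a‖ ^ 2 + ‖b‖ ^ 2) := by
  rw [q2_eq]
  have h3 := norm_add_sq_le a b
  have h6 := mul_le_mul_of_nonneg_left h3 (by positivity : 0 ≤ (h + r) / 2)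
  linarith

theorem fx_split (h c r : ℝ) (x a b : ℂ) :
    fx h c x (a + b) + (h + r) * (‖a‖ ^ 2 + ‖b‖ ^ 2) = qe h c x a + qe h c x b + r * (‖a‖ ^ 2 + ‖b‖ ^ 2) := by
  unfold fx qe
  rw [mul_add, Complex.add_re]
  ring

theorem three_sq (a b c : ℝ) : (a + b + c) ^ 2 ≤ 3 * (a ^ 2 + b ^ 2 + c ^ 2) := by
  nlinarith [sq_nonneg (a - b), sq_nonneg (b - c), sq_nonneg (a - c)]

/-- **A special crossing.** -/
theorem special_step {h c r : ℝ} {s : ℂ} (hh : 1 ≤ h) (hc : |c| ≤ 1) (hr0 : 0 < r) (hr2 : r ^ 2 = h ^ 2 - c ^ 2)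
    (hs : ‖s‖ ≤ 1) {N S W E : ℂ} {g M : ℝ} (hM : 0 ≤ M)
    (hg : fx h c S (W + E) + (h + r) * (‖W‖ ^ 2 + ‖E‖ ^ 2) + r * M ≤ g) (hN : ‖N‖ ^ 2 ≤ M) :
    g + fx h c N (W + E) - fx h c S (W + E) + ‖N + s ^ 2 * S + -s * W + -s * E‖ ^ 2 ≤ (1 + 18 * h / r) * g := by
  have hh0 : 0 < h := by linarith
  rw [fx_split] at hg
  obtain ⟨u, hu⟩ : ∃ u, u = W + E := ⟨_, rfl⟩
  have hq1 := qe_nonneg hr0 hr2 hh0 S W
  have hq2 := qe_nonneg hr0 hr2 hh0 S E
  have hg1 := (qe_ge hr0 hr2 hh0 S W).1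
  have hg2 := (qe_ge hr0 hr2 hh0 S E).1
  have hrM : 0 ≤ r * M := by positivity
  have a1 : r * ‖N‖ ^ 2 ≤ r * M := mul_le_mul_of_nonneg_left hN hr0.le
  have aN : r * ‖N‖ ^ 2 ≤ g := by
    have : 0 ≤ r * (‖W‖ ^ 2 + ‖E‖ ^ 2) := by positivity
    linarith
  have aS : r * ‖S‖ ^ 2 ≤ g / 2 := by linarith
  have au : r * ‖u‖ ^ 2 ≤ 2 * g := by
    have h1 := norm_add_sq_le W E
    rw [← hu] at h1
    have h2 := mul_le_mul_of_nonneg_left h1 hr0.le
    linarith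
  have hg0 : 0 ≤ g := by
    have : 0 ≤ r * ‖N‖ ^ 2 := by positivity
    linarith
  have hc2 : c ^ 2 ≤ 1 := by
    rw [← sq_abs]
    exact pow_le_one₀ (abs_nonneg c) hc
  have huu : c ^ 2 * ‖u‖ ^ 2 ≤ 1 * ‖u‖ ^ 2 := mul_le_mul_of_nonneg_right hc2 (by positivity)
  have t1 : fx h c N u ≤ (2 * h + 1) * ‖N‖ ^ 2 + ‖u‖ ^ 2 := by
    have h1 := cross (c := c) (α := 1) one_pos N (-u)
    have e1 : (conj N * -u).re = -(conj N * u).re := by rw [mul_neg, Complex.neg_re]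
    rw [e1, norm_neg, div_one] at h1
    unfold fx
    linarith
  have t2 : -fx h c S u ≤ ‖u‖ ^ 2 := by
    have h1 := cross (c := c) (α := 1) one_pos S u
    rw [div_one] at h1
    unfold fx
    have h2 : 1 * ‖S‖ ^ 2 ≤ 2 * h * ‖S‖ ^ 2 := mul_le_mul_of_nonneg_right (by linarith) (by positivity)
    linarith
  have t3 : ‖N + s ^ 2 * S + -s * W + -s * E‖ ^ 2 ≤ 3 * (‖N‖ ^ 2 + ‖S‖ ^ 2 + ‖u‖ ^ 2) := by
    have e1 : N + s ^ 2 * S + -s * W + -s * E = N + s ^ 2 * S + -s * u := by rw [hu]; ring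
    have h1 : ‖N + s ^ 2 * S + -s * u‖ ≤ ‖N‖ + ‖S‖ + ‖u‖ := by
      refine (norm_add_le _ _).trans (add_le_add ((norm_add_le _ _).trans (add_le_add le_rfl ?_)) ?_)
      · rw [norm_mul, norm_pow]
        exact mul_le_of_le_one_left (norm_nonneg _) (pow_le_one₀ (norm_nonneg _) hs)
      · rw [norm_mul, norm_neg]
        exact mul_le_of_le_one_left (norm_nonneg _) hs
    rw [e1]
    exact (pow_le_pow_left₀ (norm_nonneg _) h1 2).trans (three_sq _ _ _)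
  rw [← hu]
  have hsum : r * (fx h c N u + -fx h c S u + ‖N + s ^ 2 * S + -s * W + -s * E‖ ^ 2) ≤ 18 * h * g := by
    have h1 := mul_le_mul_of_nonneg_left (add_le_add (add_le_add t1 t2) t3) hr0.le
    refine h1.trans ?_
    have h2 : (2 * h + 4) * (r * ‖N‖ ^ 2) ≤ (2 * h + 4) * g := mul_le_mul_of_nonneg_left aN (by linarith)
    have h3 : h * g ≥ 1 * g := mul_le_mul_of_nonneg_right hh hg0
    nlinarith
  have h4 : fx h c N u + -fx h c S u + ‖N + s ^ 2 * S + -s * W + -s * E‖ ^ 2 ≤ 18 * h * g / r := by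
    rw [le_div_iff₀ hr0, mul_comm]
    exact hsum
  have h5 : (1 + 18 * h / r) * g = g + 18 * h * g / r := by ring
  rw [h5]
  linarith

end Pool.Agent.Helper29.GD
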