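import Pool.Agent.Helper29.GD.Gram
import Pool.Agent.Helper29.GD.Special

/-!
# A special crossing changes the form by a form of rank three
-/

set_option autoImplicit false

namespace Pool.Agent.Helper29.GD

open Matrix Complex ComplexConjugate Pool.Agent.Helper29.UD
open scoped ComplexOrder MatrixOrder

variable {ι : Type*} [Fintype ι] [DecidableEq ι]

omit [DecidableEq ι] in
/-- adding a square keeps the form positive -/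
theorem pd_add_T {B : Matrix ι ι ℂ} (hB : B.PosDef) (l : ι → ℂ) {δ : ℝ} (hδ : 0 ≤ δ) :
    (B + (δ : ℂ) • T2 l l).PosDef := by
  refine pd_of (hB.isHermitian.add ?_) fun v hv => ?_
  · unfold IsHermitian
    rw [conjTranspose_smul, (T2_herm l).eq, Complex.star_def, Complex.conj_ofReal]
  · rw [qf_add, qf_smul, qf_T]
    have h1 : 0 < qf B v := by
      have := hB.dotProduct_mulVec_pos hv
      rw [eq_qf hB.isHermitian] at this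
      exact_mod_cast this
    positivity

/-- an increase of rank three -/
theorem det_three {A B : Matrix ι ι ℂ} (hA : A.PosDef) (hB : B.PosDef) {l1 l2 l3 : ι → ℂ} {δ : ℝ} (hδ : 0 ≤ δ)
    (h : ∀ v, qf A v ≤ qf B v + δ * ‖l1 ⬝ᵥ v‖ ^ 2 + δ * ‖l2 ⬝ᵥ v‖ ^ 2 + δ * ‖l3 ⬝ᵥ v‖ ^ 2)
    (h1 : ∀ v, ‖l1 ⬝ᵥ v‖ ^ 2 ≤ qf B v) (h2 : ∀ v, ‖l2 ⬝ᵥ v‖ ^ 2 ≤ qf B v) (h3 : ∀ v, ‖l3 ⬝ᵥ v‖ ^ 2 ≤ qf B v) :
    A.det ≤ (((1 + δ) ^ 3 : ℝ) : ℂ) * B.det := by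
  obtain ⟨B1, hB1⟩ : ∃ B1, B1 = B + (δ : ℂ) • T2 l1 l1 := ⟨_, rfl⟩
  obtain ⟨B2, hB2⟩ : ∃ B2, B2 = B1 + (δ : ℂ) • T2 l2 l2 := ⟨_, rfl⟩
  have p1 : B1.PosDef := by rw [hB1]; exact pd_add_T hB l1 hδ
  have p2 : B2.PosDef := by rw [hB2]; exact pd_add_T p1 l2 hδ
  have q1 : ∀ v, qf B1 v = qf B v + δ * ‖l1 ⬝ᵥ v‖ ^ 2 := fun v => by rw [hB1, qf_add, qf_smul, qf_T]
  have q2 : ∀ v, qf B2 v = qf B1 v + δ * ‖l2 ⬝ᵥ v‖ ^ 2 := fun v => by rw [hB2, qf_add, qf_smul, qf_T]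
  have pos : ∀ l v, 0 ≤ δ * ‖(l : ι → ℂ) ⬝ᵥ v‖ ^ 2 := fun l v => by positivity
  have d1 := det_rank_one p1 hB (l := l1) hδ (fun v => (q1 v).le) h1
  have d2 := det_rank_one p2 p1 (l := l2) hδ (fun v => (q2 v).le) (fun v => by
    rw [q1]
    have := h2 v
    have := pos l1 v
    linarith)
  have d3 := det_rank_one hA p2 (l := l3) hδ (fun v => by rw [q2, q1]; exact h v) (fun v => by
    rw [q2, q1]
    have := h3 v
    have := pos l1 v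
    have := pos l2 v
    linarith)
  have hδ0 : (0 : ℂ) ≤ ((1 + δ : ℝ) : ℂ) := by
    rw [← Complex.ofReal_zero, Complex.real_le_real]; linarith
  refine d3.trans ((mul_le_mul_of_nonneg_left (d2.trans (mul_le_mul_of_nonneg_left d1 hδ0)) hδ0).trans (le_of_eq ?_))
  push_cast
  ring

/-- **A special crossing**, with the three squares. -/
theorem special_three {h c r : ℝ} {s : ℂ} (hh : 1 ≤ h) (hc : |c| ≤ 1) (hr0 : 0 < r) (hr2 : r ^ 2 = h ^ 2 - c ^ 2)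
    (hs : ‖s‖ ≤ 1) {N S W E : ℂ} {g M : ℝ} (hM : 0 ≤ M)
    (hg : fx h c S (W + E) + (h + r) * (‖W‖ ^ 2 + ‖E‖ ^ 2) + r * M ≤ g) (hN : ‖N‖ ^ 2 ≤ M) :
    r * ‖N‖ ^ 2 ≤ g ∧ r * ‖S‖ ^ 2 ≤ g ∧ r / 2 * ‖W + E‖ ^ 2 ≤ g ∧
    g + fx h c N (W + E) - fx h c S (W + E) + ‖N + s ^ 2 * S + -s * W + -s * E‖ ^ 2 ≤
      g + 10 * h / r * (r * ‖N‖ ^ 2) + 10 * h / r * (r * ‖S‖ ^ 2) + 10 * h / r * (r / 2 * ‖W + E‖ ^ 2) := by
  have hh0 : 0 < h := by linarith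
  rw [fx_split] at hg
  obtain ⟨u, hu⟩ : ∃ u, u = W + E := ⟨_, rfl⟩
  have hq1 := qe_nonneg hr0 hr2 hh0 S W
  have hq2 := qe_nonneg hr0 hr2 hh0 S E
  have hg1 := (qe_ge hr0 hr2 hh0 S W).1
  have hg2 := (qe_ge hr0 hr2 hh0 S E).1
  have hrM : 0 ≤ r * M := by positivity
  have a1 : r * ‖N‖ ^ 2 ≤ r * M := mul_le_mul_of_nonneg_left hN hr0.le
  have hN0 : 0 ≤ r * ‖N‖ ^ 2 := by positivity
  have hS0 : 0 ≤ r * ‖S‖ ^ 2 := by positivity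
  have aN : r * ‖N‖ ^ 2 ≤ g := by
    have : 0 ≤ r * (‖W‖ ^ 2 + ‖E‖ ^ 2) := by positivity
    linarith
  have aS : r * ‖S‖ ^ 2 ≤ g / 2 := by linarith
  have au : r * ‖u‖ ^ 2 ≤ 2 * g := by
    have h1 := norm_add_sq_le W E
    rw [← hu] at h1
    have h2 := mul_le_mul_of_nonneg_left h1 hr0.le
    linarith
  have hc2 : c ^ 2 ≤ 1 := by
    rw [← sq_abs]
    exact pow_le_one₀ (abs_nonneg c) hc
  have huu : c ^ 2 * ‖u‖ ^ 2 ≤ 1 * ‖u‖ ^ 2 := mul_le_mul_of_nonneg_right hc2 (by positivity)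
  have t1 : fx h c N u ≤ (2 * h + 1) * ‖N‖ ^ 2 + ‖u‖ ^ 2 := by
    have h1 := cross (c := c) (α := 1) one_pos N (-u)
    have e1 : (conj N * -u).re = -(conj N * u).re := by rw [mul_neg, Complex.neg_re]
    rw [e1, norm_neg, div_one] at h1
    unfold fx
    linarith
  have t2 : -fx h c S u ≤ ‖u‖ ^ 2 := by
    have h1 := cross (c := c) (α := 1) one_pos S u
    rw [div_one] at h1
    unfold fx
    have h2 : 1 * ‖S‖ ^ 2 ≤ 2 * h * ‖S‖ ^ 2 := mul_le_mul_of_nonneg_right (by linarith) (by positivity)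
    linarith
  have t3 : ‖N + s ^ 2 * S + -s * W + -s * E‖ ^ 2 ≤ 3 * (‖N‖ ^ 2 + ‖S‖ ^ 2 + ‖u‖ ^ 2) := by
    have e1 : N + s ^ 2 * S + -s * W + -s * E = N + s ^ 2 * S + -s * u := by rw [hu]; ring
    have h1 : ‖N + s ^ 2 * S + -s * u‖ ≤ ‖N‖ + ‖S‖ + ‖u‖ := by
      refine (norm_add_le _ _).trans (add_le_add ((norm_add_le _ _).trans (add_le_add le_rfl ?_)) ?_)
      · rw [norm_mul, norm_pow]
        exact mul_le_of_le_one_left (norm_nonneg _) (pow_le_one₀ (norm_nonneg _) hs)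
      · rw [norm_mul, norm_neg]
        exact mul_le_of_le_one_left (norm_nonneg _) hs
    rw [e1]
    exact (pow_le_pow_left₀ (norm_nonneg _) h1 2).trans (three_sq _ _ _)
  rw [← hu]
  have e1 : 10 * h / r * (r * ‖N‖ ^ 2) = 10 * h * ‖N‖ ^ 2 := by field_simp
  have e2 : 10 * h / r * (r * ‖S‖ ^ 2) = 10 * h * ‖S‖ ^ 2 := by field_simp
  have e3 : 10 * h / r * (r / 2 * ‖u‖ ^ 2) = 5 * h * ‖u‖ ^ 2 := by field_simp; ring
  have w1 : (2 * h + 4) * ‖N‖ ^ 2 ≤ 10 * h * ‖N‖ ^ 2 := mul_le_mul_of_nonneg_right (by linarith) (by positivity)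
  have w2 : 3 * ‖S‖ ^ 2 ≤ 10 * h * ‖S‖ ^ 2 := mul_le_mul_of_nonneg_right (by linarith) (by positivity)
  have w3 : 5 * ‖u‖ ^ 2 ≤ 5 * h * ‖u‖ ^ 2 := mul_le_mul_of_nonneg_right (by linarith) (by positivity)
  refine ⟨aN, by linarith, by linarith, ?_⟩
  rw [e1, e2, e3]
  linarith

end Pool.Agent.Helper29.GD
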