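import Pool.Agent.Helper29.GD.Chain
import Pool.Agent.Helper12.GD.Slice
import Pool.Agent.Helper8.GD.UpZ
import Pool.Agent.Helper57.GD.Final

/-!
# The upper bound of the Conway polynomial of every positive diagram, at every complex number
-/

set_option autoImplicit false

namespace Pool.Agent.Helper29.GD

open Polynomial Complex ComplexConjugate Pool.Agent.Helper29.UD
open Pool.Agent.Helper57.PD Pool.Agent.Helper85.Exp Pool.Agent.Helper2.PD Pool.Agent.Helper41.PD Pool.Agent.Helper16.PD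
  Pool.Agent.Helper30.EV3 Pool.Agent.Helper12.GD Pool.Agent.Helper60.EV2 Pool.Agent.Helper27.EV2 Pool.Agent.Helper57.EV

variable {P : Type} [Fintype P] {G : Sh P}

omit [Fintype P] in
theorem hs1_of {C : Finset P} {τ : P → ℕ} {H : Cut G.nxt G.op C τ} {X : List P} {κ : Face G → ℤ}
    (hX : Srt H G.lf (Lf G) (Rf G) κ X) (h c : ℝ) : HS1 H X h c :=
  fun v _ _ _ e => hX.en_step e h c v

theorem hs2_of {C : Finset P} {τ : P → ℕ} {H : Cut G.nxt G.op C τ} {X : List P} {κ : Face G → ℤ}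
    (hX : Srt H G.lf (Lf G) (Rf G) κ X) {h c r : ℝ} (hr0 : 0 < r) (hr2 : r ^ 2 = h ^ 2 - c ^ 2) (hh : 0 < h) :
    HS2 H X h c r := by
  have : Fintype (Face G) := Fintype.ofFinite _
  exact fun v M hM _ _ _ e => hX.en_lower e hr0 hr2 hh v hM

/-- the number of special crossings -/
def Ms (n : ℕ) : ℕ := 8 * n + 4 * (n * n * n)

/-- the base -/
noncomputable def C0 (n : ℕ) : ℝ := 37 + 8 * (n * n * n)

theorem one_le_C0 (n : ℕ) : 1 ≤ C0 n := by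
  unfold C0
  have : (0 : ℝ) ≤ 8 * (n * n * n) := by positivity
  linarith

open Classical in
/-- **The face determinant of a positive diagram at a complex parameter.** -/
theorem det_hi {n : ℕ} (h : Good n G) (hne : Nonempty P) : ∃ b : P, ∀ (e : Cr G ≃ (fdG h b).Col) (s : ℂ) (σ : ℝ), s ≠ 0 →
    ‖s‖ < 1 → 1 ≤ σ → 1 + ‖s‖ ^ 4 + 2 * s.im ^ 2 ≤ σ ^ 2 + ‖s‖ ^ 4 / σ ^ 2 →
    ‖(((fdG h b).A (s ^ 2) (-s) (-s)).submatrix id e).det‖ ^ 2 ≤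
      (C0 n * (1 + ‖s⁻¹ - s‖) / min 1 ‖s⁻¹ - s‖ ^ 2) ^ (Ms n * (Ms n + 1)) * (σ ^ 2) ^ Nat.card (Cr G) := by
  obtain ⟨κ, hκ⟩ := exists_kappa h.hc h.ho h.hp
  obtain ⟨C, τ, H, X, x0, hC, hN, hx0, hnd, hall, hlen, -, hX⟩ := exists_srt h hne hκ
  refine ⟨G.nxt x0, fun e s σ h0 h1 hσ1 hσ => ?_⟩
  have hm0 : 0 < ‖s‖ := norm_pos_iff.2 h0
  obtain ⟨ρ, hρ⟩ : ∃ ρ, ρ = ‖s⁻¹ - s‖ := ⟨_, rfl⟩
  have hinv1 : ‖s‖⁻¹ ≤ ρ + ‖s‖ := by
    have := norm_sub_norm_le s⁻¹ s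
    rw [norm_inv, ← hρ] at this
    linarith
  have hinv2 : 1 < ‖s‖⁻¹ := (one_lt_inv₀ hm0).2 h1
  have hρ0 : 0 < ρ := by linarith
  have hr2 : (ρ / 2) ^ 2 = ((‖s‖⁻¹ + ‖s‖) / 2) ^ 2 - (s.re / ‖s‖) ^ 2 := by
    rw [Pool.Agent.Helper8.GD.r_sq h0, ← hρ]
    ring
  have hσ0 : 0 < σ ^ 2 := by positivity
  have hS2 : σ ^ 2 * (1 + ‖s‖ ^ 4 + 2 * s.im ^ 2) ≤ (σ ^ 2) ^ 2 + ‖s‖ ^ 4 := by
    have h3 := mul_le_mul_of_nonneg_left hσ hσ0.le
    have h4 : σ ^ 2 * (σ ^ 2 + ‖s‖ ^ 4 / σ ^ 2) = (σ ^ 2) ^ 2 + ‖s‖ ^ 4 := by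
      field_simp
    linarith
  have key := norm_det_sq_le' h H hx0 (fun p hp => (hall p).1 hp) hnd (fun p hp => (hall p).2 hp) h0 h1
    (S := σ ^ 2) (one_le_pow₀ hσ1) hS2 rfl rfl (half_pos hρ0) hr2 (hs1_of hX _ _)
    (hs2_of hX (half_pos hρ0) hr2 (by positivity)) _ rfl e
  refine key.trans ?_
  rw [hlen, ← hρ]
  obtain ⟨m, hm⟩ : ∃ m, m = min 1 ρ := ⟨_, rfl⟩
  have hm1 : m ≤ 1 := by rw [hm]; exact min_le_left _ _
  have hmρ : m ≤ ρ := by rw [hm]; exact min_le_right _ _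
  have hmp : 0 < m := by rw [hm]; exact lt_min one_pos hρ0
  rw [← hm]
  obtain ⟨hh, hhd⟩ : ∃ hh, hh = (‖s‖⁻¹ + ‖s‖) / 2 := ⟨_, rfl⟩
  rw [← hhd]
  have hh1 : hh ≤ 1 + ρ := by rw [hhd]; linarith
  have hh0 : 0 < hh := by rw [hhd]; positivity
  obtain ⟨Q, hQ⟩ : ∃ Q, Q = C0 n * (1 + ρ) / m ^ 2 := ⟨_, rfl⟩
  rw [← hQ]
  have hm2 : m ^ 2 ≤ m := by nlinarith
  have hn0 : (0 : ℝ) ≤ n * n * n := by positivity
  have hQ1 : 1 + 18 * hh / (ρ / 2) ≤ Q := by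
    have e1 : 18 * hh / (ρ / 2) ≤ 36 * (1 + ρ) / m ^ 2 := by
      rw [div_le_div_iff₀ (by positivity) (by positivity)]
      have h3 : hh * m ^ 2 ≤ (1 + ρ) * ρ :=
        mul_le_mul hh1 (hm2.trans hmρ) (by positivity) (by positivity)
      linarith
    have e2 : 1 ≤ (1 + ρ) / m ^ 2 := by
      rw [one_le_div (by positivity)]
      nlinarith
    have e3 : 0 ≤ 8 * ((n : ℝ) * n * n) * ((1 + ρ) / m ^ 2) := by positivity
    rw [hQ]
    unfold C0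
    have e4 : (37 + 8 * ((n : ℝ) * n * n)) * (1 + ρ) / m ^ 2 =
      36 * (1 + ρ) / m ^ 2 + (1 + ρ) / m ^ 2 + 8 * (n * n * n) * ((1 + ρ) / m ^ 2) := by ring
    rw [e4]
    linarith
  have hQ2 : 8 * hh * C.card ≤ Q := by
    have e0 : (C.card : ℝ) ≤ n * n * n := by exact_mod_cast hC
    have e1 : 8 * hh * C.card ≤ 8 * (1 + ρ) * (n * n * n) :=
      mul_le_mul (by linarith) e0 (Nat.cast_nonneg _) (by positivity)
    have e2 : 8 * (1 + ρ) * ((n : ℝ) * n * n) ≤ 8 * (1 + ρ) * (n * n * n) / m ^ 2 := by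
      rw [le_div_iff₀ (by positivity)]
      have : m ^ 2 ≤ 1 := by nlinarith
      have h5 : 0 ≤ 8 * (1 + ρ) * ((n : ℝ) * n * n) := by positivity
      nlinarith
    have e3 : 0 ≤ 37 * (1 + ρ) / m ^ 2 := by positivity
    rw [hQ]
    unfold C0
    have e4 : (37 + 8 * ((n : ℝ) * n * n)) * (1 + ρ) / m ^ 2 =
      37 * (1 + ρ) / m ^ 2 + 8 * (1 + ρ) * (n * n * n) / m ^ 2 := by ring
    rw [e4]
    linarith
  have hQ3 : 1 ≤ Q := by
    have : 0 ≤ 18 * hh / (ρ / 2) := by positivity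
    linarith
  obtain ⟨N, hNN⟩ : ∃ N, N = (spc G C).card := ⟨_, rfl⟩
  rw [← hNN] at hN ⊢
  have a1 : ((1 + 18 * hh / (ρ / 2)) ^ N) ^ N ≤ (Q ^ N) ^ N := by
    gcongr
  have a2 : (8 * hh * (C.card : ℝ)) ^ N ≤ Q ^ N := by
    gcongr
  have a3 : (Q ^ N) ^ N * Q ^ N ≤ Q ^ (Ms n * (Ms n + 1)) := by
    rw [← pow_mul, ← pow_add]
    refine pow_le_pow_right₀ hQ3 ?_
    have : N ≤ Ms n := hN
    nlinarith
  calc (σ ^ 2) ^ Nat.card (Cr G) * ((1 + 18 * hh / (ρ / 2)) ^ N) ^ N * (8 * hh * (C.card : ℝ)) ^ N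
      ≤ (σ ^ 2) ^ Nat.card (Cr G) * (Q ^ N) ^ N * Q ^ N := by gcongr
    _ = (Q ^ N) ^ N * Q ^ N * (σ ^ 2) ^ Nat.card (Cr G) := by ring
    _ ≤ _ := mul_le_mul_of_nonneg_right a3 (by positivity)

/-- **(F)**: the upper bound. -/
theorem upZ {n : ℕ} (h : Good n G) (hne : Nonempty P) {nab : Dg G → ℤ[X]} (hn : Cs nab) {R κ : ℝ} (hR : 1 ≤ R)
    (hκ0 : 0 ≤ κ) (hκ : κ * (40 * (R * √R)) ≤ 1) :
    Pool.Agent.Helper57.GD.UpZ (((Ms n * (Ms n + 1) : ℕ) : ℝ) * (Real.log (2 * C0 n) + Real.log R))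
      (2 * (Ms n * (Ms n + 1))) κ R (Nat.card (Cr G)) (nab (allPos G)) := by
  classical
  obtain ⟨b, hb⟩ := det_hi h hne
  obtain ⟨α, nab', e, hn', -, -, hform, hA⟩ := one_shadow h b
  have hu : nab = nab' := Cs.unique hn hn'
  rw [hu]
  exact Pool.Agent.Helper8.GD.upZ_of_sq (one_le_C0 n)
    (D := fun z => ‖(((fdG h b).A (z ^ 2) (-z) (-z)).submatrix id e).det‖)
    (fun z hz => Pool.Agent.Helper8.GD.hp_of h b hform hA z hz) (fun s σ h1 h2 h3 h4 => hb e s σ h1 h2 h3 h4) hR hκ0 hκ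

theorem allUpZ : Pool.Agent.Helper57.GD.AllUpZ := by
  obtain ⟨B, hB⟩ : ∃ B : ℕ, B = 28080 := ⟨_, rfl⟩
  refine ⟨B, by omega, fun n P _ G h hne nab hn R hR => ?_⟩
  have hR0 : 0 < R := by linarith
  have hsR : 1 ≤ √R := by
    rw [← Real.sqrt_one]
    exact Real.sqrt_le_sqrt hR
  have h1 := upZ h hne hn (R := R) (κ := 1 / (256 * (R * √R))) hR (by positivity) (by
    rw [one_div_mul_eq_div, div_le_one (by positivity)]
    have : 0 < R * √R := by positivity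
    linarith)
  have hMs : Ms n ≤ 12 * (n + 1) ^ 3 := by
    unfold Ms
    nlinarith [sq_nonneg n]
  have hMs2 : Ms n * (Ms n + 1) ≤ 156 * (n + 1) ^ 6 := by
    have h3 : 1 ≤ (n + 1) ^ 3 := Nat.one_le_pow _ _ (by omega)
    calc Ms n * (Ms n + 1) ≤ (12 * (n + 1) ^ 3) * (12 * (n + 1) ^ 3 + (n + 1) ^ 3) :=
          Nat.mul_le_mul hMs (by omega)
      _ = 156 * (n + 1) ^ 6 := by ring
  have hexp : ∀ k, k ≤ B → (n + 1) ^ k ≤ (n + 1) ^ B := fun k hk => Nat.pow_le_pow_right (by omega) hk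
  have hPB1 : 2 * (Ms n * (Ms n + 1)) ≤ Pool.Agent.Helper57.GD.PB B n := by
    unfold Pool.Agent.Helper57.GD.PB
    have := hexp 6 (by omega)
    calc 2 * (Ms n * (Ms n + 1)) ≤ 2 * (156 * (n + 1) ^ 6) := Nat.mul_le_mul_left _ hMs2
      _ ≤ B * (n + 1) ^ 6 := by
        rw [hB]
        omega
      _ ≤ _ := Nat.mul_le_mul_left _ this
  have hlR : 0 ≤ Real.log R := Real.log_nonneg hR
  have hl : Real.log (2 * C0 n) ≤ 90 * ((n : ℝ) + 1) ^ 3 := by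
    have h3 := one_le_C0 n
    refine (Real.log_le_sub_one_of_pos (by linarith)).trans ?_
    unfold C0
    have h4 : (0 : ℝ) ≤ n := Nat.cast_nonneg _
    have e1 : ((n : ℝ) + 1) ^ 3 = n * n * n + 3 * n ^ 2 + 3 * n + 1 := by ring
    rw [e1]
    have h5 : (0 : ℝ) ≤ n * n * n := by positivity
    have h6 : (0 : ℝ) ≤ (n : ℝ) ^ 2 := by positivity
    linarith
  refine h1.mono ?_ hPB1
  have h3 : Real.log (2 * C0 n) + Real.log R ≤ 90 * ((n : ℝ) + 1) ^ 3 * (1 + Real.log R) := by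
    have h4 : (1 : ℝ) ≤ 90 * ((n : ℝ) + 1) ^ 3 := by
      have : (1 : ℝ) ≤ ((n : ℝ) + 1) ^ 3 := one_le_pow₀ (by
        have : (0 : ℝ) ≤ n := Nat.cast_nonneg _
        linarith)
      linarith
    nlinarith
  have h4 : ((Ms n * (Ms n + 1) : ℕ) : ℝ) ≤ 156 * ((n : ℝ) + 1) ^ 6 := by exact_mod_cast hMs2
  have h5 : (14040 * ((n : ℝ) + 1) ^ 9) ≤ (Pool.Agent.Helper57.GD.PB B n : ℕ) := by
    have h6 : 14040 * (n + 1) ^ 9 ≤ Pool.Agent.Helper57.GD.PB B n := by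
      unfold Pool.Agent.Helper57.GD.PB
      exact Nat.mul_le_mul (by omega) (hexp 9 (by omega))
    exact_mod_cast h6
  have h7 : 0 ≤ 1 + Real.log R := by linarith
  calc ((Ms n * (Ms n + 1) : ℕ) : ℝ) * (Real.log (2 * C0 n) + Real.log R)
      ≤ (156 * ((n : ℝ) + 1) ^ 6) * (90 * ((n : ℝ) + 1) ^ 3 * (1 + Real.log R)) := by
        refine mul_le_mul h4 h3 ?_ (by positivity)
        have := Real.log_nonneg (show 1 ≤ 2 * C0 n by have := one_le_C0 n; linarith)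
        linarith
    _ = 14040 * ((n : ℝ) + 1) ^ 9 * (1 + Real.log R) := by ring
    _ ≤ _ := mul_le_mul_of_nonneg_right h5 h7

end Pool.Agent.Helper29.GD
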