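import Pool.Agent.Helper29.GD.Chain2
import Pool.Agent.Helper29.GD.Hi

/-!
# The upper bound of the Conway polynomial of every positive diagram, with an exponent linear in the
number of special crossings
-/

set_option autoImplicit false

namespace Pool.Agent.Helper29.GD

open Polynomial Complex ComplexConjugate Pool.Agent.Helper29.UD
open Pool.Agent.Helper57.PD Pool.Agent.Helper85.Exp Pool.Agent.Helper2.PD Pool.Agent.Helper41.PD Pool.Agent.Helper16.PD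
  Pool.Agent.Helper30.EV3 Pool.Agent.Helper12.GD Pool.Agent.Helper60.EV2 Pool.Agent.Helper27.EV2 Pool.Agent.Helper57.EV

variable {P : Type} [Fintype P] {G : Sh P}

/-- the base -/
noncomputable def C1 (n : ℕ) : ℝ := 21 + 8 * (n * n * n)

theorem one_le_C1 (n : ℕ) : 1 ≤ C1 n := by
  unfold C1
  have : (0 : ℝ) ≤ 8 * (n * n * n) := by positivity
  linarith

open Classical in
/-- **The face determinant of a positive diagram at a complex parameter.** -/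
theorem det_hi3 {n : ℕ} (h : Good n G) (hne : Nonempty P) : ∃ b : P, ∀ (e : Cr G ≃ (fdG h b).Col) (s : ℂ) (σ : ℝ), s ≠ 0 →
    ‖s‖ < 1 → 1 ≤ σ → 1 + ‖s‖ ^ 4 + 2 * s.im ^ 2 ≤ σ ^ 2 + ‖s‖ ^ 4 / σ ^ 2 →
    ‖(((fdG h b).A (s ^ 2) (-s) (-s)).submatrix id e).det‖ ^ 2 ≤
      (C1 n * (1 + ‖s⁻¹ - s‖) / min 1 ‖s⁻¹ - s‖ ^ 2) ^ (4 * Ms n) * (σ ^ 2) ^ Nat.card (Cr G) := by
  obtain ⟨κ, hκ⟩ := exists_kappa h.hc h.ho h.hp
  obtain ⟨C, τ, H, X, x0, hC, hN, hx0, hnd, hall, hlen, -, hX⟩ := exists_srt h hne hκ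
  refine ⟨G.nxt x0, fun e s σ h0 h1 hσ1 hσ => ?_⟩
  have hm0 : 0 < ‖s‖ := norm_pos_iff.2 h0
  obtain ⟨ρ, hρ⟩ : ∃ ρ, ρ = ‖s⁻¹ - s‖ := ⟨_, rfl⟩
  have hinv1 : ‖s‖⁻¹ ≤ ρ + ‖s‖ := by
    have := norm_sub_norm_le s⁻¹ s
    rw [norm_inv, ← hρ] at this
    linarith
  have hinv2 : 1 < ‖s‖⁻¹ := (one_lt_inv₀ hm0).2 h1
  have hρ0 : 0 < ρ := by linarith
  have hr2 : (ρ / 2) ^ 2 = ((‖s‖⁻¹ + ‖s‖) / 2) ^ 2 - (s.re / ‖s‖) ^ 2 := by
    rw [Pool.Agent.Helper8.GD.r_sq h0, ← hρ]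
    ring
  have hσ0 : 0 < σ ^ 2 := by positivity
  have hS2 : σ ^ 2 * (1 + ‖s‖ ^ 4 + 2 * s.im ^ 2) ≤ (σ ^ 2) ^ 2 + ‖s‖ ^ 4 := by
    have h3 := mul_le_mul_of_nonneg_left hσ hσ0.le
    have h4 : σ ^ 2 * (σ ^ 2 + ‖s‖ ^ 4 / σ ^ 2) = (σ ^ 2) ^ 2 + ‖s‖ ^ 4 := by
      field_simp
    linarith
  have key := norm_det_sq_le3 h H hx0 (fun p hp => (hall p).1 hp) hnd (fun p hp => (hall p).2 hp) h0 h1
    (S := σ ^ 2) (one_le_pow₀ hσ1) hS2 rfl rfl (half_pos hρ0) hr2 (hs1_of hX _ _)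
    (hs2_of hX (half_pos hρ0) hr2 (by positivity)) _ rfl e
  refine key.trans ?_
  rw [hlen, ← hρ]
  obtain ⟨m, hm⟩ : ∃ m, m = min 1 ρ := ⟨_, rfl⟩
  have hm1 : m ≤ 1 := by rw [hm]; exact min_le_left _ _
  have hmρ : m ≤ ρ := by rw [hm]; exact min_le_right _ _
  have hmp : 0 < m := by rw [hm]; exact lt_min one_pos hρ0
  rw [← hm]
  obtain ⟨hh, hhd⟩ : ∃ hh, hh = (‖s‖⁻¹ + ‖s‖) / 2 := ⟨_, rfl⟩
  rw [← hhd]
  have hh1 : hh ≤ 1 + ρ := by rw [hhd]; linarith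
  have hh0 : 0 < hh := by rw [hhd]; positivity
  obtain ⟨Q, hQ⟩ : ∃ Q, Q = C1 n * (1 + ρ) / m ^ 2 := ⟨_, rfl⟩
  rw [← hQ]
  have hm2 : m ^ 2 ≤ m := by nlinarith
  have hn0 : (0 : ℝ) ≤ n * n * n := by positivity
  have hQ1 : 1 + 10 * hh / (ρ / 2) ≤ Q := by
    have e1 : 10 * hh / (ρ / 2) ≤ 20 * (1 + ρ) / m ^ 2 := by
      rw [div_le_div_iff₀ (by positivity) (by positivity)]
      have h3 : hh * m ^ 2 ≤ (1 + ρ) * ρ :=
        mul_le_mul hh1 (hm2.trans hmρ) (by positivity) (by positivity)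
      linarith
    have e2 : 1 ≤ (1 + ρ) / m ^ 2 := by
      rw [one_le_div (by positivity)]
      nlinarith
    have e3 : 0 ≤ 8 * ((n : ℝ) * n * n) * ((1 + ρ) / m ^ 2) := by positivity
    rw [hQ]
    unfold C1
    have e4 : (21 + 8 * ((n : ℝ) * n * n)) * (1 + ρ) / m ^ 2 =
      20 * (1 + ρ) / m ^ 2 + (1 + ρ) / m ^ 2 + 8 * (n * n * n) * ((1 + ρ) / m ^ 2) := by ring
    rw [e4]
    linarith
  have hQ2 : 8 * hh * C.card ≤ Q := by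
    have e0 : (C.card : ℝ) ≤ n * n * n := by exact_mod_cast hC
    have e1 : 8 * hh * C.card ≤ 8 * (1 + ρ) * (n * n * n) :=
      mul_le_mul (by linarith) e0 (Nat.cast_nonneg _) (by positivity)
    have e2 : 8 * (1 + ρ) * ((n : ℝ) * n * n) ≤ 8 * (1 + ρ) * (n * n * n) / m ^ 2 := by
      rw [le_div_iff₀ (by positivity)]
      have : m ^ 2 ≤ 1 := by nlinarith
      have h5 : 0 ≤ 8 * (1 + ρ) * ((n : ℝ) * n * n) := by positivity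
      nlinarith
    have e3 : 0 ≤ 21 * (1 + ρ) / m ^ 2 := by positivity
    rw [hQ]
    unfold C1
    have e4 : (21 + 8 * ((n : ℝ) * n * n)) * (1 + ρ) / m ^ 2 =
      21 * (1 + ρ) / m ^ 2 + 8 * (1 + ρ) * (n * n * n) / m ^ 2 := by ring
    rw [e4]
    linarith
  have hQ3 : 1 ≤ Q := by
    have : 0 ≤ 10 * hh / (ρ / 2) := by positivity
    linarith
  obtain ⟨N, hNN⟩ : ∃ N, N = (spc G C).card := ⟨_, rfl⟩
  rw [← hNN] at hN ⊢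
  have a1 : ((1 + 10 * hh / (ρ / 2)) ^ 3) ^ N ≤ (Q ^ 3) ^ N := by
    gcongr
  have a2 : (8 * hh * (C.card : ℝ)) ^ N ≤ Q ^ N := by
    gcongr
  have a3 : (Q ^ 3) ^ N * Q ^ N ≤ Q ^ (4 * Ms n) := by
    rw [← pow_mul, ← pow_add]
    refine pow_le_pow_right₀ hQ3 ?_
    have : N ≤ Ms n := hN
    omega
  calc (σ ^ 2) ^ Nat.card (Cr G) * ((1 + 10 * hh / (ρ / 2)) ^ 3) ^ N * (8 * hh * (C.card : ℝ)) ^ N
      ≤ (σ ^ 2) ^ Nat.card (Cr G) * (Q ^ 3) ^ N * Q ^ N := by gcongr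
    _ = (Q ^ 3) ^ N * Q ^ N * (σ ^ 2) ^ Nat.card (Cr G) := by ring
    _ ≤ _ := mul_le_mul_of_nonneg_right a3 (by positivity)

/-- **(F)**: the upper bound. -/
theorem upZ3 {n : ℕ} (h : Good n G) (hne : Nonempty P) {nab : Dg G → ℤ[X]} (hn : Cs nab) {R κ : ℝ} (hR : 1 ≤ R)
    (hκ0 : 0 ≤ κ) (hκ : κ * (40 * (R * √R)) ≤ 1) :
    Pool.Agent.Helper57.GD.UpZ (((4 * Ms n : ℕ) : ℝ) * (Real.log (2 * C1 n) + Real.log R))
      (2 * (4 * Ms n)) κ R (Nat.card (Cr G)) (nab (allPos G)) := by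
  classical
  obtain ⟨b, hb⟩ := det_hi3 h hne
  obtain ⟨α, nab', e, hn', -, -, hform, hA⟩ := one_shadow h b
  have hu : nab = nab' := Cs.unique hn hn'
  rw [hu]
  exact Pool.Agent.Helper8.GD.upZ_of_sq (one_le_C1 n)
    (D := fun z => ‖(((fdG h b).A (z ^ 2) (-z) (-z)).submatrix id e).det‖)
    (fun z hz => Pool.Agent.Helper8.GD.hp_of h b hform hA z hz) (fun s σ h1 h2 h3 h4 => hb e s σ h1 h2 h3 h4) hR hκ0 hκ

end Pool.Agent.Helper29.GD
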